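import Pool.Agent.helper15.KDef
import Pool.Agent.helper15.KFrozen
import Pool.Agent.helper15.NTh

/-! Kumar's conjecture in a linear range: there is `c > 0` such that it holds for every even `n`
and every `i ≤ c n`. -/

namespace Pool.Agent.helper15.KOld.LinearRange

open Pool.Agent.helper15.Kumar

lemma goodN_zero_left (i : ℕ) : GoodN 0 i := by
  unfold GoodN Good
  refine Submodule.subset_span ⟨fun s => s.elim0, ?_⟩
  ext Y
  simp

lemma goodN_zero_right (n : ℕ) : GoodN n 0 := by
  unfold GoodN Good
  refine Submodule.subset_span ⟨fun _ r => r.elim0, ?_⟩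
  ext Y
  simp

lemma goodN_of_mem_closure {i n : ℕ} (hi : 1 ≤ i)
    (h : n ∈ AddSubmonoid.closure (Pool.Agent.helper15.NT.AA i)) : GoodN n i := by
  induction h using AddSubmonoid.closure_induction with
  | mem a ha =>
    obtain ⟨p, hp, hip, ha⟩ := ha
    rcases ha with rfl | rfl
    · exact (goodN_pred hp).mono (by omega)
    · by_cases hp2 : p = 2
      · subst hp2
        have h1 : GoodN 1 1 := goodN_pred Nat.prime_two
        have h2 : GoodN (1 + 1 + 1) 1 := (h1.add h1).add h1
        exact h2.mono (by omega)
      · have h2 := hp.two_le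
        exact (goodN_succ hp (by omega)).mono (by omega)
  | zero => exact goodN_zero_left i
  | add a b _ _ ha hb => exact ha.add hb

/-- There is a constant `c > 0` such that for every even `n` and every `i ≤ c n` the module
`S_{(n^i)}` occurs in the coordinate ring of the Chow variety. -/
theorem result : ∃ c : ℝ, 0 < c ∧ ∀ n : ℕ, Even n → ∀ i : ℕ, (i : ℝ) ≤ c * n →
    KumarOccurs n i := by
  obtain ⟨C, hC, h⟩ := Pool.Agent.helper15.NT.exists_const_all
  have hC' : (0 : ℝ) < C := by exact_mod_cast hC
  have hC1 : (1 : ℝ) ≤ C := by exact_mod_cast hC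
  refine ⟨1 / C, by positivity, ?_⟩
  intro n hn i hi
  have h1 : (C : ℝ) * i ≤ n := by
    rw [one_div, inv_mul_eq_div, le_div_iff₀ hC'] at hi
    linarith
  have h2 : C * i ≤ n := by exact_mod_cast h1
  have h3 : i ≤ n := by nlinarith
  rcases Nat.eq_zero_or_pos i with rfl | hpos
  · exact kumarOccurs_of_goodN h3 (goodN_zero_right n)
  · exact kumarOccurs_of_goodN h3 (goodN_of_mem_closure hpos (h i hpos n hn h2))

end Pool.Agent.helper15.KOld.LinearRange
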