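import Pool.Agent.helper15.KDef
import Pool.Agent.helper15.KFrozen

/-! Kumar's conjecture for `n = n_1 + ... + n_k`, every `n_j` of the form `p_j - 1`, `p_j + 1` or
`p_j + 3` with `p_j` a prime larger than `i`. -/

namespace Pool.Agent.helper15.KOld.PrimeBlocks

open Pool.Agent.helper15.Kumar

lemma goodN_zero (i : ℕ) : GoodN 0 i := by
  unfold GoodN Good
  refine Submodule.subset_span ⟨fun s => s.elim0, ?_⟩
  ext Y
  simp

lemma goodN_nsmul {i : ℕ} (k : ℕ) (h : GoodN 1 i) : GoodN k i := by
  induction k with
  | zero => exact goodN_zero i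
  | succ k ih => exact ih.add h

lemma goodN_block {p i m : ℕ} (hp : p.Prime) (hi : i < p)
    (hm : m = p - 1 ∨ m = p + 1 ∨ m = p + 3) : GoodN m i := by
  have h2 := hp.two_le
  by_cases hp2 : p = 2
  · subst hp2
    have h1 : GoodN 1 1 := goodN_pred Nat.prime_two
    exact (goodN_nsmul m h1).mono (by omega)
  · have h3 : 3 ≤ p := by omega
    rcases hm with rfl | rfl | rfl
    · exact (goodN_pred hp).mono (by omega)
    · exact (goodN_succ hp h3).mono (by omega)
    · by_cases hp3 : p = 3
      · subst hp3
        have h5 : Nat.Prime 5 := by norm_num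
        have h := goodN_succ h5 (by norm_num)
        exact h.mono (by omega)
      · have h4 : p ≠ 4 := by
          rintro rfl
          exact absurd hp (by norm_num)
        exact (goodN_add_three hp (by omega)).mono (by omega)

/-- If `n` is a nonempty sum of numbers, each of the form `p - 1`, `p + 1` or `p + 3` with `p` a
prime larger than `i`, then the module `S_{(n^i)}` occurs in the coordinate ring of the Chow
variety. -/
theorem result : ∀ (i : ℕ) (s : List ℕ), s ≠ [] →
    (∀ m ∈ s, ∃ p : ℕ, p.Prime ∧ i < p ∧ (m = p - 1 ∨ m = p + 1 ∨ m = p + 3)) →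
    KumarOccurs s.sum i := by
  intro i s hs hblocks
  have hgood : ∀ s : List ℕ,
      (∀ m ∈ s, ∃ p : ℕ, p.Prime ∧ i < p ∧ (m = p - 1 ∨ m = p + 1 ∨ m = p + 3)) →
      GoodN s.sum i := by
    intro s
    induction s with
    | nil => intro _; exact goodN_zero i
    | cons a s ih =>
      intro h
      rw [List.sum_cons]
      obtain ⟨p, hp, hi, hm⟩ := h a List.mem_cons_self
      exact (goodN_block hp hi hm).add (ih fun m hm => h m (List.mem_cons_of_mem _ hm))
  have hle : i ≤ s.sum := by
    obtain ⟨a, ha⟩ := List.exists_mem_of_ne_nil s hs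
    obtain ⟨p, hp, hi, hm⟩ := hblocks a ha
    have h1 : a ≤ s.sum := List.le_sum_of_mem ha
    have h2 : i ≤ a := by omega
    exact h2.trans h1
  exact kumarOccurs_of_goodN hle (hgood s hblocks)

end Pool.Agent.helper15.KOld.PrimeBlocks
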